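import Mathlib
import Pool.Agent.Lib.MP_e9abfe_ag_DMC.Fin
import Pool.Agent.Lib.MP_e9abfe_ag_DMC.Gaps

set_option autoImplicit false

namespace Pool.Agent.Results.MP_e9abfe_ag.Curves

open MvPolynomial

/-- **Theorem.** Let `Φ(x, y, z) = (x² + y, y² + z, z² + x)` and let `α` be any point of `ℂ³`.

(1) Let `V` be a Zariski-closed subset of `ℂ³` of dimension at most one: any two of the three
coordinate functions satisfy a nonzero polynomial relation on `V`. Then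
`S(V, α) = {n : Φⁿ(α) ∈ V}` is a finite union of arithmetic progressions.

(2) Let `V` be any Zariski-closed subset of `ℂ³`. Then `S(V, α)` is the union of finitely many
arithmetic progressions and of finitely many sets `A` whose gaps tend to infinity: for every
`k > 0` only finitely many `n ∈ A` have `n + k ∈ A`. -/
theorem result (α : Fin 3 → ℂ) (S : Set (MvPolynomial (Fin 3) ℂ)) :
    ((∀ i j : Fin 3, i ≠ j → ∃ H : MvPolynomial (Fin 2) ℂ, H ≠ 0 ∧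
        ∀ v : Fin 3 → ℂ, (∀ f ∈ S, eval v f = 0) → eval ![v i, v j] H = 0) →
      ∃ F : Finset (ℕ × ℕ),
        {n : ℕ | ∀ f ∈ S, eval
            ((fun v : Fin 3 → ℂ => ![v 0 ^ 2 + v 1, v 1 ^ 2 + v 2, v 2 ^ 2 + v 0])^[n] α) f = 0}
          = {m : ℕ | ∃ p ∈ F, ∃ j : ℕ, m = p.1 + p.2 * j}) ∧
    ∃ (F : Finset (ℕ × ℕ)) (E : Finset (Set ℕ)),
      (∀ A ∈ E, ∀ k, 0 < k → {n | n ∈ A ∧ n + k ∈ A}.Finite) ∧
      {n : ℕ | ∀ f ∈ S, eval
          ((fun v : Fin 3 → ℂ => ![v 0 ^ 2 + v 1, v 1 ^ 2 + v 2, v 2 ^ 2 + v 0])^[n] α) f = 0}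
        = {m : ℕ | (∃ p ∈ F, ∃ j : ℕ, m = p.1 + p.2 * j) ∨ ∃ A ∈ E, m ∈ A} := by
  refine ⟨fun hdim => Pool.Agent.DMC.final α S hdim, ?_⟩
  exact Pool.Agent.DMC.gap_final α (fun T hT => by
    obtain ⟨F, hF⟩ := Pool.Agent.DMC.final α T hT
    have h : Pool.Agent.DMC.ret α T = {m : ℕ | ∃ p ∈ F, ∃ j : ℕ, m = p.1 + p.2 * j} := hF
    rw [h]
    exact Pool.Agent.DMC.gap_of_AP F) S

end Pool.Agent.Results.MP_e9abfe_ag.Curves
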