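import Mathlib
import Pool.Agent.Lib.MP_e9abfe_ag_GSF.Fin

set_option autoImplicit false

namespace Pool.Agent.Results.MP_e9abfe_ag.GenericSurfaces

open MvPolynomial

/-- **Theorem.** Let `Φ(x, y, z) = (x² + y, y² + z, z² + x)` and let `α` be ANY point of `ℂ³`. Let
`V` be a Zariski-closed subset of `ℂ³` (the common zeros of the set `S` of polynomials) which is
contained in a surface `f = 0` such that the coefficients of `f` at `x^d`, `y^d` and `z^d` are all
nonzero, where `d` is the total degree of `f`. Then `S(V, α) = {n : Φⁿ(α) ∈ V}` is a finite union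
of arithmetic progressions. -/
theorem result (α : Fin 3 → ℂ) (S : Set (MvPolynomial (Fin 3) ℂ)) (f : MvPolynomial (Fin 3) ℂ)
    (hf : ∀ i : Fin 3, coeff (Finsupp.single i f.totalDegree) f ≠ 0)
    (hS : ∀ v : Fin 3 → ℂ, (∀ g ∈ S, eval v g = 0) → eval v f = 0) :
    ∃ F : Finset (ℕ × ℕ),
      {n : ℕ | ∀ g ∈ S, eval
          ((fun v : Fin 3 → ℂ => ![v 0 ^ 2 + v 1, v 1 ^ 2 + v 2, v 2 ^ 2 + v 0])^[n] α) g = 0}
        = {m : ℕ | ∃ p ∈ F, ∃ j : ℕ, m = p.1 + p.2 * j} :=
  Pool.Agent.GSF.final α S f hf hS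

end Pool.Agent.Results.MP_e9abfe_ag.GenericSurfaces
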