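import Mathlib
import Pool.Agent.Lib.MP_e9abfe_ag_TRA.Fin

set_option autoImplicit false

namespace Pool.Agent.Results.MP_e9abfe_ag.NonAlgebraicPoints

open MvPolynomial

/-- **Theorem.** Let `Φ(x, y, z) = (x² + y, y² + z, z² + x)`. For every Zariski-closed subset `V` of
`ℂ³` (the common zeros of the set `S` of polynomials) and every point `α` of `ℂ³` with a
transcendental coordinate, `S(V, α) = {n : Φⁿ(α) ∈ V}` is a finite union of arithmetic progressions.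
The same holds at those algebraic points `α` such that, for some `N` and some embedding of `ℂ` in
`ℂ₂`, each coordinate of `Φᴺ(α)` is 2-adically integral or smaller than the square of the
coordinate before it (cyclically). -/
theorem result (α : Fin 3 → ℂ)
    (hα : (∀ i, IsAlgebraic ℚ (α i)) → ∃ (N : ℕ) (φ : ℂ →+* PadicComplex 2),
      ∀ w : Fin 3 → ℂ,
        w = (fun v : Fin 3 → ℂ => ![v 0 ^ 2 + v 1, v 1 ^ 2 + v 2, v 2 ^ 2 + v 0])^[N] α →
          ∀ i, ‖φ (w (i + 1))‖ ≤ 1 ∨ ‖φ (w (i + 1))‖ < ‖φ (w i)‖ ^ 2)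
    (S : Set (MvPolynomial (Fin 3) ℂ)) :
    ∃ F : Finset (ℕ × ℕ),
      {n : ℕ | ∀ g ∈ S, eval
          ((fun v : Fin 3 → ℂ => ![v 0 ^ 2 + v 1, v 1 ^ 2 + v 2, v 2 ^ 2 + v 0])^[n] α) g = 0}
        = {m : ℕ | ∃ p ∈ F, ∃ j : ℕ, m = p.1 + p.2 * j} :=
  Pool.Agent.TRA.final α (fun h => by
    obtain ⟨N, φ, hφ⟩ := hα h
    exact ⟨N, φ, hφ _ rfl⟩) S

end Pool.Agent.Results.MP_e9abfe_ag.NonAlgebraicPoints
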