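import Mathlib
import Pool.Agent.Lib.MP_e9abfe_ag.Main
import Pool.Agent.Lib.MP_e9abfe_ag.RealDyn

set_option autoImplicit false

namespace Pool.Agent.Results.MP_e9abfe_ag.RealPoints

open MvPolynomial

/-- The return set `S(V, α)` of the Zariski-closed set `V` defined by the polynomials in `S`,
for the map `Φ(x, y, z) = (x² + y, y² + z, z² + x)`. -/
def returnSet (S : Set (MvPolynomial (Fin 3) ℂ)) (α : Fin 3 → ℂ) : Set ℕ :=
  {n : ℕ | ∀ f ∈ S,
    eval ((fun v : Fin 3 → ℂ => ![v 0 ^ 2 + v 1, v 1 ^ 2 + v 2, v 2 ^ 2 + v 0])^[n] α) f = 0}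

/-- Return sets of `α` and of an iterate of `α`. -/
lemma returnSet_shift (S : Set (MvPolynomial (Fin 3) ℂ)) (α : Fin 3 → ℂ) (N : ℕ)
    (h : (returnSet S (Pool.Agent.MP_e9abfe.Phi^[N] α)).Finite ∨
      (returnSet S (Pool.Agent.MP_e9abfe.Phi^[N] α))ᶜ.Finite) :
    (returnSet S α).Finite ∨ (returnSet S α)ᶜ.Finite := by
  have hmem : ∀ d, d ∈ returnSet S (Pool.Agent.MP_e9abfe.Phi^[N] α) ↔ d + N ∈ returnSet S α := by
    intro d
    show (∀ f ∈ S, eval (Pool.Agent.MP_e9abfe.Phi^[d] (Pool.Agent.MP_e9abfe.Phi^[N] α)) f = 0) ↔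
      (∀ f ∈ S, eval (Pool.Agent.MP_e9abfe.Phi^[d + N] α) f = 0)
    rw [Function.iterate_add_apply]
  have hsplit : ∀ k, k < N ∨ ∃ d, d + N = k := by
    intro k
    by_cases h : k < N
    · exact Or.inl h
    · exact Or.inr ⟨k - N, by omega⟩
  rcases h with h | h
  · left
    apply ((Set.finite_Iio N).union (h.image (fun d => d + N))).subset
    intro k hk
    rcases hsplit k with h1 | ⟨d, rfl⟩
    · exact Or.inl h1
    · exact Or.inr ⟨d, (hmem d).2 hk, rfl⟩
  · right
    apply ((Set.finite_Iio N).union (h.image (fun d => d + N))).subset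
    intro k hk
    rcases hsplit k with h1 | ⟨d, rfl⟩
    · exact Or.inl h1
    · exact Or.inr ⟨d, fun hd => hk ((hmem d).1 hd), rfl⟩

/-- A finite or cofinite set is a finite union of arithmetic progressions. -/
lemma progressions_of_finite_or_cofinite (Z : Set ℕ) (h : Z.Finite ∨ Zᶜ.Finite) :
    ∃ F : Finset (ℕ × ℕ), Z = {m : ℕ | ∃ p ∈ F, ∃ j : ℕ, m = p.1 + p.2 * j} := by
  rcases h with h | h
  · obtain ⟨N, hN⟩ := h.bddAbove
    apply Pool.Agent.MP_e9abfe.progressions Z (N + 1) 1 one_pos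
    intro n hn
    left
    apply (Set.finite_empty).subset
    intro t ht
    have := hN ht
    omega
  · obtain ⟨N, hN⟩ := h.bddAbove
    apply Pool.Agent.MP_e9abfe.progressions Z (N + 1) 1 one_pos
    intro n hn
    right
    intro t
    by_contra hcon
    have := hN hcon
    omega

/-- **Theorem.** Let `Φ(x, y, z) = (x² + y, y² + z, z² + x)` and let `α` be a point of `ℂ³` such
that the coordinates of some iterate `Φᴺ(α)` lie in a subfield `k` of `ℂ` which has a ring
homomorphism to `ℝ` (for instance `k = ℝ`, i.e. `α` is any real point). Then for every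
Zariski-closed `V` the set `S(V, α)` is finite or cofinite, and so it is a finite union of
arithmetic progressions. -/
theorem result (α : Fin 3 → ℂ) (N : ℕ) (k : Subfield ℂ)
    (hk : ∀ i,
      (fun v : Fin 3 → ℂ => ![v 0 ^ 2 + v 1, v 1 ^ 2 + v 2, v 2 ^ 2 + v 0])^[N] α i ∈ k)
    (hσ : Nonempty (k →+* ℝ)) (S : Set (MvPolynomial (Fin 3) ℂ)) :
    ((returnSet S α).Finite ∨ (returnSet S α)ᶜ.Finite) ∧
      ∃ F : Finset (ℕ × ℕ),
        returnSet S α = {m : ℕ | ∃ p ∈ F, ∃ j : ℕ, m = p.1 + p.2 * j} := by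
  have h : (returnSet S α).Finite ∨ (returnSet S α)ᶜ.Finite := by
    obtain ⟨σ⟩ := hσ
    apply returnSet_shift S α N
    let a : Fin 3 → k := fun i => ⟨_, hk i⟩
    have ha : (fun i => algebraMap k ℂ (a i)) = Pool.Agent.MP_e9abfe.Phi^[N] α := rfl
    rcases Pool.Agent.MP_e9abfe.real_embedding a σ S with h | ⟨n0, hn0⟩
    · left
      rw [ha] at h
      exact h
    · right
      rw [ha] at hn0
      apply (Set.finite_Iio n0).subset
      intro n hn
      rw [Set.mem_Iio]
      by_contra hle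
      exact hn (hn0 n (not_lt.1 hle))
  exact ⟨h, progressions_of_finite_or_cofinite _ h⟩

end Pool.Agent.Results.MP_e9abfe_ag.RealPoints
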